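import Pool.Agent.helper46.U.Gen
import Pool.Agent.helper44.U.Anti
import Pool.Agent.helper50.EY.Cnt
import Pool.Agent.helper64.EY.B1
import Pool.Agent.helper64.EY.B2z

set_option autoImplicit false
set_option linter.unusedSectionVars false

/-!
# UU-B2: states with one variable `x = b`, `q = 2 h` even, `E = c h - D`, `2 ≤ c ≤ 2 h`, `0 ≤ D < h`

`φ = ψ(σ; b) + ε ∫_0^w t^a (t - b)^e ∏_i (σ - s_i b² - t b - t²) dt`, `a + e + 2 p = 2 h`, `e ≤ 1`,
`ψ_b = (σ - s_0 b²)^(h - D) ∏ (σ - s_i b²)^(k_i)`.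
-/

namespace EY

open MvPolynomial Filter Topology

noncomputable section

/-! ### degrees -/

theorem natDegree_aeval_le24 {σ : Type*} [Fintype σ] (g : σ → Polynomial ℂ) (d : σ → ℕ)
    (hd : ∀ i, (g i).natDegree ≤ d i) (G : MvPolynomial σ ℂ) (n : ℕ)
    (h : ∀ m, coeff m G ≠ 0 → ∑ i, m i * d i ≤ n) : (aeval g G).natDegree ≤ n := by
  rw [aeval_def, eval₂_eq']
  refine Polynomial.natDegree_sum_le_of_forall_le _ _ fun m hm => ?_
  refine (Polynomial.natDegree_mul_le).trans ?_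
  rw [Polynomial.algebraMap_eq, Polynomial.natDegree_C, zero_add]
  refine (Polynomial.natDegree_prod_le _ _).trans ?_
  refine le_trans (Finset.sum_le_sum fun i _ => ?_) (h m (mem_support_iff.mp hm))
  exact (Polynomial.natDegree_pow_le).trans (Nat.mul_le_mul_left _ (hd i))

theorem coeff_anti24 {σ : Type*} [DecidableEq σ] (v : σ) (A : MvPolynomial σ ℂ) (m : σ →₀ ℕ)
    (hm : coeff m (UO.anti v A) ≠ 0) : ∃ s, coeff s A ≠ 0 ∧ m = s + Finsupp.single v 1 := by
  have h1 : A = ∑ s ∈ A.support, monomial s (A.coeff s) := (support_sum_monomial_coeff A).symm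
  rw [h1, map_sum, coeff_sum] at hm
  obtain ⟨s, hs, hs'⟩ := Finset.exists_ne_zero_of_sum_ne_zero hm
  rw [UO.anti_monomial, coeff_monomial] at hs'
  refine ⟨s, mem_support_iff.mp hs, ?_⟩
  by_contra h
  exact hs' (if_neg fun h' => h h'.symm)

theorem coeff_X_pow_mul24 {σ : Type*} [DecidableEq σ] (v : σ) (a : ℕ) (F : MvPolynomial σ ℂ) (m : σ →₀ ℕ)
    (hm : coeff m (X v ^ a * F) ≠ 0) : a ≤ m v := by
  rw [X_pow_eq_monomial, coeff_monomial_mul'] at hm
  by_contra h
  apply hm
  rw [if_neg]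
  intro hle
  have h1 := hle v
  rw [Finsupp.single_eq_same] at h1
  exact h h1

/-! ### counting on a line -/

section line

variable {R : Type*} [CommRing R] [Algebra ℂ R]

/-- the scheme `a = G = 0` where `a = 0` is a line -/
theorem cnt_line24 (π : MvPolynomial (Option (Fin 1)) ℂ →ₐ[ℂ] Polynomial ℂ)
    (j : Polynomial ℂ →ₐ[ℂ] MvPolynomial (Option (Fin 1)) ℂ) (hπj : π (j Polynomial.X) = Polynomial.X)
    (a : MvPolynomial (Option (Fin 1)) ℂ) (ha : π a = 0)
    (hs : ∀ i, X i - j (π (X i)) ∈ Ideal.span {a}) (G : MvPolynomial (Option (Fin 1)) ℂ) (hG : π G ≠ 0) :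
    Module.Finite ℂ (MvPolynomial (Option (Fin 1)) ℂ ⧸ Ideal.span (Set.range
      (Function.update (fun _ : Option (Fin 1) => G) none a))) ∧
    Module.finrank ℂ (MvPolynomial (Option (Fin 1)) ℂ ⧸ Ideal.span (Set.range
      (Function.update (fun _ : Option (Fin 1) => G) none a))) = (π G).natDegree := by
  set I : Ideal (MvPolynomial (Option (Fin 1)) ℂ) :=
    Ideal.span (Set.range (Function.update (fun _ : Option (Fin 1) => G) none a)) with hI
  have haI : a ∈ I := Ideal.subset_span ⟨none, Function.update_self ..⟩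
  have hGI : G ∈ I := Ideal.subset_span ⟨some 0, Function.update_of_ne (by simp) ..⟩
  have hcomp : π.comp j = AlgHom.id ℂ _ := Polynomial.algHom_ext (by simpa using hπj)
  have hpj : ∀ x, π (j x) = x := fun x => AlgHom.congr_fun hcomp x
  have h2 : ∀ x, x - j (π x) ∈ Ideal.span {a} := by
    have h3 : (Ideal.Quotient.mkₐ ℂ (Ideal.span {a})) =
        (Ideal.Quotient.mkₐ ℂ (Ideal.span {a})).comp (j.comp π) := by
      apply MvPolynomial.algHom_ext
      intro i
      simp only [AlgHom.comp_apply, Ideal.Quotient.mkₐ_eq_mk]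
      exact Ideal.Quotient.eq.mpr (hs i)
    intro x
    have h4 := AlgHom.congr_fun h3 x
    simp only [AlgHom.comp_apply, Ideal.Quotient.mkₐ_eq_mk] at h4
    exact Ideal.Quotient.eq.mp h4
  have haI' : Ideal.span {a} ≤ I := by rw [Ideal.span_le, Set.singleton_subset_iff]; exact haI
  set J : Ideal (Polynomial ℂ) := Ideal.span {π G} with hJ
  have hIJ : ∀ f ∈ I, Ideal.Quotient.mkₐ ℂ J (π f) = 0 := by
    intro f hf
    have h5 : I ≤ RingHom.ker ((Ideal.Quotient.mkₐ ℂ J).comp π) := by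
      rw [hI, Ideal.span_le]
      rintro _ ⟨o, rfl⟩
      change (Ideal.Quotient.mkₐ ℂ J) (π _) = 0
      rcases o with _ | o
      · rw [Function.update_self, ha, map_zero]
      · rw [Function.update_of_ne (by simp)]
        exact Ideal.Quotient.eq_zero_iff_mem.mpr (Ideal.subset_span rfl)
    exact h5 hf
  have hJI : ∀ f ∈ J, Ideal.Quotient.mkₐ ℂ I (j f) = 0 := by
    intro f hf
    obtain ⟨b, rfl⟩ := Ideal.mem_span_singleton'.mp hf
    rw [map_mul, map_mul]
    have h6 : Ideal.Quotient.mkₐ ℂ I (j (π G)) = 0 := by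
      have h7 : j (π G) = G - (G - j (π G)) := by ring
      rw [h7]
      exact Ideal.Quotient.eq_zero_iff_mem.mpr (I.sub_mem hGI (haI' (h2 G)))
    rw [h6, mul_zero]
  let T : (MvPolynomial (Option (Fin 1)) ℂ ⧸ I) →ₐ[ℂ] (Polynomial ℂ ⧸ J) :=
    Ideal.Quotient.liftₐ I ((Ideal.Quotient.mkₐ ℂ J).comp π) hIJ
  let T' : (Polynomial ℂ ⧸ J) →ₐ[ℂ] (MvPolynomial (Option (Fin 1)) ℂ ⧸ I) :=
    Ideal.Quotient.liftₐ J ((Ideal.Quotient.mkₐ ℂ I).comp j) hJI
  have hT : Function.Surjective T := by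
    intro y
    obtain ⟨p, rfl⟩ := Ideal.Quotient.mk_surjective y
    refine ⟨Ideal.Quotient.mk I (j p), ?_⟩
    change Ideal.Quotient.mk J (π (j p)) = _
    rw [hpj]
  have hT' : Function.Surjective T' := by
    intro y
    obtain ⟨p, rfl⟩ := Ideal.Quotient.mk_surjective y
    refine ⟨Ideal.Quotient.mk J (π p), ?_⟩
    change Ideal.Quotient.mk I (j (π p)) = _
    exact (Ideal.Quotient.eq.mpr (haI' (h2 p))).symm
  have hfin : Module.Finite ℂ (Polynomial ℂ ⧸ J) := by
    have h8 : J = Ideal.span {π G * Polynomial.C (π G).leadingCoeff⁻¹} := by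
      rw [hJ, Ideal.span_singleton_mul_right_unit]
      rw [Polynomial.isUnit_C]
      exact (inv_ne_zero (Polynomial.leadingCoeff_ne_zero.mpr hG)).isUnit
    rw [h8]
    exact (Polynomial.monic_mul_leadingCoeff_inv hG).finite_quotient
  have hf2 : Module.Finite ℂ (MvPolynomial (Option (Fin 1)) ℂ ⧸ I) :=
    Module.Finite.of_surjective T'.toLinearMap hT'
  refine ⟨hf2, ?_⟩
  have hrk : Module.finrank ℂ (Polynomial ℂ ⧸ J) = (π G).natDegree := by
    rw [hJ, finrank_quotient_span_eq_natDegree]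
  refine le_antisymm ?_ ?_
  · have := LinearMap.finrank_le_finrank_of_surjective (f := T'.toLinearMap) hT'
    rwa [hrk] at this
  · have := LinearMap.finrank_le_finrank_of_surjective (f := T.toLinearMap) hT
    rwa [hrk] at this

end line

/-! ### the form -/

section B2

/-- the factor `σ - c b² - w b - w²` -/
def b2P (c : ℂ) : MvPolynomial (Option (Option (Fin 1))) ℂ :=
  X none - C c * X (some (some 0)) ^ 2 - X (some none) * X (some (some 0)) - X (some none) ^ 2

/-- the product of the factors -/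
def b2V {p : ℕ} (e : ℕ) (s : Fin p → ℂ) : MvPolynomial (Option (Option (Fin 1))) ℂ :=
  (X (some none) - X (some (some 0))) ^ e * ∏ i, b2P (s i)

/-- `w^a V` -/
def b2A {p : ℕ} (a e : ℕ) (s : Fin p → ℂ) : MvPolynomial (Option (Option (Fin 1))) ℂ :=
  X (some none) ^ a * b2V e s

theorem b2P_wh (c : ℂ) : wh (vw (Fin 1)) 2 (b2P c) := by
  have h1 : wh (vw (Fin 1)) 2 (X none : MvPolynomial (Option (Option (Fin 1))) ℂ) := wh_X _ _
  have h2 : wh (vw (Fin 1)) 1 (X (some none) : MvPolynomial (Option (Option (Fin 1))) ℂ) := wh_X _ _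
  have h3 : wh (vw (Fin 1)) 1 (X (some (some 0)) : MvPolynomial (Option (Option (Fin 1))) ℂ) := wh_X _ _
  exact wh_sub (wh_sub (wh_sub h1 (wh_C_mul _ (wh_pow h3 2))) (wh_mul h2 h3)) (wh_pow h2 2)

theorem b2V_wh {p : ℕ} (e : ℕ) (s : Fin p → ℂ) : wh (vw (Fin 1)) (e + 2 * p) (b2V e s) := by
  have h2 : wh (vw (Fin 1)) 1 (X (some none) : MvPolynomial (Option (Option (Fin 1))) ℂ) := wh_X _ _
  have h3 : wh (vw (Fin 1)) 1 (X (some (some 0)) : MvPolynomial (Option (Option (Fin 1))) ℂ) := wh_X _ _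
  have h4 := wh_pow (wh_sub h2 h3) e
  have h5 := wh_prod Finset.univ (f := fun i => b2P (s i)) (s := fun _ => 2) fun i _ => b2P_wh (s i)
  have h6 := wh_mul h4 h5
  rw [Finset.sum_const, Finset.card_univ, Fintype.card_fin, smul_eq_mul, one_mul, mul_comm p 2] at h6
  exact h6

theorem b2A_wh {p : ℕ} (a e : ℕ) (s : Fin p → ℂ) : wh (vw (Fin 1)) (a + (e + 2 * p)) (b2A a e s) := by
  have h2 : wh (vw (Fin 1)) 1 (X (some none) : MvPolynomial (Option (Option (Fin 1))) ℂ) := wh_X _ _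
  have h3 := wh_mul (wh_pow h2 a) (b2V_wh e s)
  rw [one_mul] at h3
  exact h3

theorem b2A_zero {p : ℕ} (a e : ℕ) (s : Fin p → ℂ) (x : Option (Option (Fin 1)) → ℂ) (h0 : x none = 0)
    (h1 : ∀ i, x (some (some i)) = 0) (h2 : eval x (b2A a e s) = 0) : x (some none) = 0 := by
  unfold b2A b2V b2P at h2
  simp only [map_mul, map_pow, map_sub, map_prod, eval_X, eval_C, h0, h1 0, sub_zero, mul_zero, zero_sub,
    zero_pow (two_ne_zero)] at h2
  rcases mul_eq_zero.mp h2 with h3 | h3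
  · exact eq_zero_of_pow_eq_zero h3
  rcases mul_eq_zero.mp h3 with h4 | h4
  · exact eq_zero_of_pow_eq_zero h4
  · obtain ⟨i, _, hi⟩ := Finset.prod_eq_zero_iff.mp h4
    exact eq_zero_of_pow_eq_zero (neg_eq_zero.mp hi)

theorem ev1_s24 {τ : Type} : ev1 (X none : MvPolynomial (Option (Option τ)) ℂ) = X none := by
  unfold ev1; rw [aeval_X]; rfl

theorem ev1_w24 {τ : Type} : ev1 (X (some none) : MvPolynomial (Option (Option τ)) ℂ) = 1 := by
  unfold ev1; rw [aeval_X]; rfl

theorem ev1_x24 {τ : Type} (i : τ) : ev1 (X (some (some i)) : MvPolynomial (Option (Option τ)) ℂ) = X (some i) := by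
  unfold ev1; rw [aeval_X]; rfl

theorem ev1_C24 {τ : Type} (c : ℂ) : ev1 (C c : MvPolynomial (Option (Option τ)) ℂ) = C c := by
  unfold ev1; rw [aeval_C]; rfl

theorem ev1_up24 {τ : Type} (f : MvPolynomial (Option τ) ℂ) : ev1 (up f) = f := by
  unfold up ev1
  rw [aeval_rename]
  have : ((fun o : Option (Option τ) => o.elim (X none) fun o' => o'.elim 1 fun i => X (some i)) ∘
      Option.map some) = (X : Option τ → MvPolynomial (Option τ) ℂ) := by
    funext o
    rcases o with _ | o <;> rfl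
  rw [this, aeval_X_left_apply]

/-- the factor at `w = 1` -/
def b2Q (c : ℂ) : MvPolynomial (Option (Fin 1)) ℂ := X none - C c * X (some 0) ^ 2 - X (some 0) - 1

theorem ev1_b2P (c : ℂ) : ev1 (b2P c) = b2Q c := by
  unfold b2P b2Q
  simp only [map_sub, map_mul, map_pow, ev1_s24, ev1_w24, ev1_x24, ev1_C24, one_mul, one_pow]

theorem ev1_b2A {p : ℕ} (a e : ℕ) (s : Fin p → ℂ) :
    ev1 (b2A a e s) = (1 - X (some 0)) ^ e * ∏ i, b2Q (s i) := by
  unfold b2A b2V
  simp only [map_mul, map_pow, map_sub, map_prod, ev1_w24, ev1_x24, ev1_b2P, one_pow, one_mul]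

/-- the part `∫_0^1 t^a V_b dt` -/
def b2R {p : ℕ} (a e : ℕ) (s : Fin p → ℂ) : MvPolynomial (Option (Option (Fin 1))) ℂ :=
  UO.anti (some none) (pderiv (some (some 0)) (b2A a e s))

theorem b2R_supp {p n : ℕ} (a e : ℕ) (s : Fin p → ℂ) (hn : a + (e + 2 * p) = n) (hn1 : 1 ≤ n)
    (m : Option (Option (Fin 1)) →₀ ℕ) (hm : coeff m (b2R a e s) ≠ 0) :
    2 * m none + m (some none) + m (some (some 0)) = n ∧ a + 1 ≤ m (some none) := by
  constructor
  · have h1 : wh (vw (Fin 1)) (n - 1) (pderiv (some (some 0)) (b2A a e s)) :=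
      wh_pderiv (hn ▸ b2A_wh a e s) _ _ (by simp only [vw, Option.elim]; omega)
    have h2 : wh (vw (Fin 1)) n (b2R a e s) :=
      UO.wh_anti h1 (some none) n (by simp only [vw, Option.elim]; omega)
    have h3 := h2 m hm
    unfold wd at h3
    rw [Fintype.sum_option, Fintype.sum_option] at h3
    simp only [vw, Option.elim, one_mul, Finset.univ_unique, Fin.default_eq_zero, Finset.sum_singleton] at h3
    omega
  · obtain ⟨t, ht, rfl⟩ := coeff_anti24 _ _ _ hm
    have h4 : pderiv (some (some 0)) (b2A a e s) = X (some none) ^ a * pderiv (some (some 0)) (b2V e s) := by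
      unfold b2A
      rw [Derivation.leibniz, Derivation.leibniz_pow, pderiv_X, Pi.single_eq_of_ne (by simp)]
      simp
    rw [h4] at ht
    have h5 := coeff_X_pow_mul24 _ _ _ _ ht
    rw [Finsupp.add_apply, Finsupp.single_eq_same]
    omega

/-! ### the two kinds of lines -/

/-- the line `σ = c b² + b + 1` -/
def piS (c : ℂ) : MvPolynomial (Option (Fin 1)) ℂ →ₐ[ℂ] Polynomial ℂ :=
  aeval fun o => o.elim (Polynomial.C c * Polynomial.X ^ 2 + Polynomial.X + 1) fun _ => Polynomial.X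

/-- the line `b = 1` -/
def piL : MvPolynomial (Option (Fin 1)) ℂ →ₐ[ℂ] Polynomial ℂ :=
  aeval fun o => o.elim Polynomial.X fun _ => 1

theorem piS_s (c : ℂ) : piS c (X none) = Polynomial.C c * Polynomial.X ^ 2 + Polynomial.X + 1 := by
  unfold piS; rw [aeval_X]; rfl

theorem piS_b (c : ℂ) (i : Fin 1) : piS c (X (some i)) = Polynomial.X := by
  unfold piS; rw [aeval_X]; rfl

theorem piS_C (c d : ℂ) : piS c (C d) = Polynomial.C d := by
  unfold piS; rw [aeval_C]; rfl

theorem piL_s : piL (X none) = Polynomial.X := by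
  unfold piL; rw [aeval_X]; rfl

theorem piL_b (i : Fin 1) : piL (X (some i)) = 1 := by
  unfold piL; rw [aeval_X]; rfl

theorem piL_C (d : ℂ) : piL (C d) = Polynomial.C d := by
  unfold piL; rw [aeval_C]; rfl

theorem cnt_piS (c : ℂ) (G : MvPolynomial (Option (Fin 1)) ℂ) (hG : piS c G ≠ 0) :
    Module.Finite ℂ (MvPolynomial (Option (Fin 1)) ℂ ⧸ Ideal.span (Set.range
      (Function.update (fun _ : Option (Fin 1) => G) none (b2Q c)))) ∧
    Module.finrank ℂ (MvPolynomial (Option (Fin 1)) ℂ ⧸ Ideal.span (Set.range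
      (Function.update (fun _ : Option (Fin 1) => G) none (b2Q c)))) = (piS c G).natDegree := by
  refine cnt_line24 (piS c) (Polynomial.aeval (X (some 0))) ?_ (b2Q c) ?_ ?_ G hG
  · rw [Polynomial.aeval_X, piS_b]
  · unfold b2Q
    rw [map_sub, map_sub, map_sub, map_mul, map_pow, map_one, piS_s, piS_b, piS_C]
    ring
  · intro i
    rcases i with _ | i
    · have h1 : X none - (Polynomial.aeval (X (some 0) : MvPolynomial (Option (Fin 1)) ℂ)) (piS c (X none)) =
          b2Q c := by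
        rw [piS_s, map_add, map_add, map_mul, map_pow, Polynomial.aeval_C, Polynomial.aeval_X, map_one]
        unfold b2Q
        rw [MvPolynomial.algebraMap_eq]
        ring
      rw [h1]
      exact Ideal.subset_span rfl
    · rw [piS_b, Polynomial.aeval_X, Subsingleton.elim i 0, sub_self]
      exact Ideal.zero_mem _

theorem cnt_piL (G : MvPolynomial (Option (Fin 1)) ℂ) (hG : piL G ≠ 0) :
    Module.Finite ℂ (MvPolynomial (Option (Fin 1)) ℂ ⧸ Ideal.span (Set.range
      (Function.update (fun _ : Option (Fin 1) => G) none (1 - X (some 0))))) ∧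
    Module.finrank ℂ (MvPolynomial (Option (Fin 1)) ℂ ⧸ Ideal.span (Set.range
      (Function.update (fun _ : Option (Fin 1) => G) none (1 - X (some 0))))) = (piL G).natDegree := by
  refine cnt_line24 piL (Polynomial.aeval (X none)) ?_ _ ?_ ?_ G hG
  · rw [Polynomial.aeval_X, piL_s]
  · rw [map_sub, map_one, piL_b, sub_self]
  · intro i
    rcases i with _ | i
    · rw [piL_s, Polynomial.aeval_X, sub_self]
      exact Ideal.zero_mem _
    · rw [piL_b, map_one, Subsingleton.elim i 0]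
      have h1 : X (some 0) - 1 = -(1 - X (some 0) : MvPolynomial (Option (Fin 1)) ℂ) := by ring
      rw [h1]
      exact Submodule.neg_mem _ (Ideal.subset_span (Set.mem_singleton _))

/-! ### degrees of the leading part -/

/-- `ψ_b` -/
def b2F {p : ℕ} (h : ℕ) (k : Fin p → ℕ) (s0 : ℂ) (s : Fin p → ℂ) : MvPolynomial (Option (Fin 1)) ℂ :=
  (X none - C s0 * X (some 0) ^ 2) ^ (h - ∑ i, k i) * ∏ i, (X none - C (s i) * X (some 0) ^ 2) ^ k i

/-- the quadratic polynomial `d b² + b + 1` -/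
def qd (d : ℂ) : Polynomial ℂ := Polynomial.C d * Polynomial.X ^ 2 + Polynomial.X + 1

theorem qd_deg (d : ℂ) : (qd d).natDegree = if d = 0 then 1 else 2 := by
  unfold qd
  split_ifs with hd
  · rw [hd]
    simp only [map_zero, zero_mul, zero_add]
    exact Polynomial.natDegree_X_add_C 1
  · compute_degree!

theorem qd_ne (d : ℂ) : qd d ≠ 0 := by
  intro h
  have h1 := qd_deg d
  rw [h, Polynomial.natDegree_zero] at h1
  split_ifs at h1

theorem piS_F {p : ℕ} (h : ℕ) (k : Fin p → ℕ) (s0 : ℂ) (s : Fin p → ℂ) (c : ℂ) :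
    piS c (b2F h k s0 s) = qd (c - s0) ^ (h - ∑ i, k i) * ∏ i, qd (c - s i) ^ k i := by
  have h1 : ∀ d : ℂ, piS c (X none - C d * X (some 0) ^ 2) = qd (c - d) := by
    intro d
    rw [map_sub, map_mul, map_pow, piS_s, piS_b, piS_C]
    unfold qd
    rw [Polynomial.C_sub]
    ring
  unfold b2F
  rw [map_mul, map_pow, h1, map_prod]
  congr 1
  exact Finset.prod_congr rfl fun i _ => by rw [map_pow, h1]

theorem piS_F_ne {p : ℕ} (h : ℕ) (k : Fin p → ℕ) (s0 : ℂ) (s : Fin p → ℂ) (c : ℂ) :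
    piS c (b2F h k s0 s) ≠ 0 := by
  rw [piS_F]
  exact mul_ne_zero (pow_ne_zero _ (qd_ne _)) (Finset.prod_ne_zero_iff.mpr fun i _ => pow_ne_zero _ (qd_ne _))

theorem piS_F_deg {p : ℕ} {h : ℕ} {k : Fin p → ℕ} (hk : ∑ i, k i ≤ h) {s0 : ℂ} {s : Fin p → ℂ}
    (h0 : ∀ i, s i ≠ s0) (hinj : Function.Injective s) (i : Fin p) :
    (piS (s i) (b2F h k s0 s)).natDegree = 2 * h - k i := by
  rw [piS_F, Polynomial.natDegree_mul (pow_ne_zero _ (qd_ne _))
    (Finset.prod_ne_zero_iff.mpr fun i _ => pow_ne_zero _ (qd_ne _)), Polynomial.natDegree_pow,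
    Polynomial.natDegree_prod _ _ fun i _ => pow_ne_zero _ (qd_ne _)]
  have h1 : (qd (s i - s0)).natDegree = 2 := by
    rw [qd_deg, if_neg (sub_ne_zero.mpr (h0 i))]
  have h2 : ∀ j, (qd (s i - s j) ^ k j).natDegree + (if j = i then k i else 0) = 2 * k j := by
    intro j
    rw [Polynomial.natDegree_pow, qd_deg]
    by_cases hj : j = i
    · subst hj
      rw [sub_self, if_pos rfl, if_pos rfl]
      ring
    · rw [if_neg (fun h => hj (hinj (sub_eq_zero.mp h).symm)), if_neg hj]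
      ring
  have h3 : (∑ j, (qd (s i - s j) ^ k j).natDegree) + k i = 2 * ∑ j, k j := by
    have h4 : ∑ j : Fin p, (if j = i then k i else 0) = k i := by
      rw [Finset.sum_ite_eq' Finset.univ i, if_pos (Finset.mem_univ i)]
    conv_lhs => rw [← h4]
    rw [← Finset.sum_add_distrib, Finset.mul_sum]
    exact Finset.sum_congr rfl fun j _ => h2 j
  rw [h1]
  omega

theorem piL_F {p : ℕ} (h : ℕ) (k : Fin p → ℕ) (s0 : ℂ) (s : Fin p → ℂ) :
    piL (b2F h k s0 s) = (Polynomial.X - Polynomial.C s0) ^ (h - ∑ i, k i) *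
      ∏ i, (Polynomial.X - Polynomial.C (s i)) ^ k i := by
  have h1 : ∀ d : ℂ, piL (X none - C d * X (some 0) ^ 2) = Polynomial.X - Polynomial.C d := by
    intro d
    rw [map_sub, map_mul, map_pow, piL_s, piL_b, piL_C, one_pow, mul_one]
  unfold b2F
  rw [map_mul, map_pow, h1, map_prod]
  congr 1
  exact Finset.prod_congr rfl fun i _ => by rw [map_pow, h1]

theorem piL_F_ne {p : ℕ} (h : ℕ) (k : Fin p → ℕ) (s0 : ℂ) (s : Fin p → ℂ) : piL (b2F h k s0 s) ≠ 0 := by
  rw [piL_F]
  exact mul_ne_zero (pow_ne_zero _ (Polynomial.X_sub_C_ne_zero _))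
    (Finset.prod_ne_zero_iff.mpr fun i _ => pow_ne_zero _ (Polynomial.X_sub_C_ne_zero _))

theorem piL_F_deg {p : ℕ} {h : ℕ} {k : Fin p → ℕ} (hk : ∑ i, k i ≤ h) (s0 : ℂ) (s : Fin p → ℂ) :
    (piL (b2F h k s0 s)).natDegree = h := by
  rw [piL_F, Polynomial.natDegree_mul (pow_ne_zero _ (Polynomial.X_sub_C_ne_zero _))
    (Finset.prod_ne_zero_iff.mpr fun i _ => pow_ne_zero _ (Polynomial.X_sub_C_ne_zero _)),
    Polynomial.natDegree_pow, Polynomial.natDegree_X_sub_C,
    Polynomial.natDegree_prod _ _ fun i _ => pow_ne_zero _ (Polynomial.X_sub_C_ne_zero _)]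
  have h2 : ∀ i : Fin p, ((Polynomial.X - Polynomial.C (s i)) ^ k i).natDegree = k i := by
    intro i
    rw [Polynomial.natDegree_pow, Polynomial.natDegree_X_sub_C, mul_one]
  simp only [h2]
  omega

/-! ### degrees of the small part -/

theorem piS_ev1_deg {p n : ℕ} (a e : ℕ) (s : Fin p → ℂ) (hn : a + (e + 2 * p) = n) (hn1 : 1 ≤ n) (c : ℂ) :
    (piS c (ev1 (b2R a e s))).natDegree ≤ n - (a + 1) := by
  have h1 : piS c (ev1 (b2R a e s)) = aeval (fun o : Option (Option (Fin 1)) => piS c (ev1 (X o))) (b2R a e s) := by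
    have : (piS c).comp ev1 = aeval (fun o : Option (Option (Fin 1)) => piS c (ev1 (X o))) := by
      apply MvPolynomial.algHom_ext
      intro o
      rw [aeval_X]
      rfl
    exact AlgHom.congr_fun this _
  rw [h1]
  refine natDegree_aeval_le24 _ (fun o => o.elim 2 fun o' => o'.elim 0 fun _ => 1) ?_ _ _ ?_
  · intro o
    rcases o with _ | _ | i
    · rw [ev1_s24, piS_s]
      have := qd_deg c
      unfold qd at this
      rw [this]
      simp only [Option.elim]
      split_ifs <;> omega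
    · rw [ev1_w24, map_one]
      simp
    · rw [ev1_x24, piS_b]
      simp
  · intro m hm
    obtain ⟨h2, h3⟩ := b2R_supp a e s hn hn1 m hm
    rw [Fintype.sum_option, Fintype.sum_option]
    simp only [Option.elim, Finset.univ_unique, Fin.default_eq_zero, Finset.sum_singleton]
    omega

theorem piL_ev1_deg {p n : ℕ} (a e : ℕ) (s : Fin p → ℂ) (hn : a + (e + 2 * p) = n) (hn1 : 1 ≤ n) :
    2 * (piL (ev1 (b2R a e s))).natDegree ≤ n - (a + 1) := by
  have h1 : piL (ev1 (b2R a e s)) = aeval (fun o : Option (Option (Fin 1)) => piL (ev1 (X o))) (b2R a e s) := by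
    have : (piL).comp ev1 = aeval (fun o : Option (Option (Fin 1)) => piL (ev1 (X o))) := by
      apply MvPolynomial.algHom_ext
      intro o
      rw [aeval_X]
      rfl
    exact AlgHom.congr_fun this _
  rw [h1]
  have h4 : (aeval (fun o : Option (Option (Fin 1)) => piL (ev1 (X o))) (b2R a e s)).natDegree ≤
      (n - (a + 1)) / 2 := by
    refine natDegree_aeval_le24 _ (fun o => o.elim 1 fun _ => 0) ?_ _ _ ?_
    · intro o
      rcases o with _ | _ | i
      · rw [ev1_s24, piL_s]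
        simp
      · rw [ev1_w24, map_one]
        simp
      · rw [ev1_x24, piL_b]
        simp
    · intro m hm
      obtain ⟨h2, h3⟩ := b2R_supp a e s hn hn1 m hm
      rw [Fintype.sum_option, Fintype.sum_option]
      simp only [Option.elim, Finset.univ_unique, Fin.default_eq_zero, Finset.sum_singleton]
      omega
  omega

/-! ### the state -/

theorem b2_main {h p a e : ℕ} (hh : 1 ≤ h) (ht : a + (e + 2 * p) = 2 * h) (k : Fin p → ℕ)
    (hk1 : ∀ i, k i ≤ a + 1) (hk : ∑ i, k i ≤ h) (s0 : ℂ) (s : Fin p → ℂ)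
    (ψ : MvPolynomial (Option (Fin 1)) ℂ) (h0 : ∀ i, s i ≠ s0) (hinj : Function.Injective s)
    (hψ : wh (w21 (Fin 1)) (2 * h + 1) ψ) (hnd : Nds ψ) (hZ : ZZ ψ) (hF : pderiv (some 0) ψ = b2F h k s0 s)
    (E : ℕ) (hE : E + ∑ i, k i = (e + 2 * p) * h) :
    ∃ B A : MvPolynomial (Option (Option (Fin 1))) ℂ, wh (vw (Fin 1)) (2 * h + 1) B ∧
      pderiv (some none) B = A ∧
      (∀ x : Option (Option (Fin 1)) → ℂ, x none = 0 → (∀ i, x (some (some i)) = 0) → eval x A = 0 →
        x (some none) = 0) ∧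
      ∀ᶠ ε in 𝓝 (0 : ℂ), ε ≠ 0 → St (Fin 1) (2 * h) E (up ψ + C ε * B) ∧ ZZ (up ψ + C ε * B) := by
  set A := b2A a e s with hAdef
  set B : MvPolynomial (Option (Option (Fin 1))) ℂ := UO.anti (some none) A with hBdef
  have hA : pderiv (some none) B = A := UO.pderiv_anti _ _
  have hAw : wh (vw (Fin 1)) (2 * h) A := ht ▸ b2A_wh a e s
  have hB : wh (vw (Fin 1)) (2 * h + 1) B := UO.wh_anti hAw (some none) _ rfl
  have hA0 : ∀ x : Option (Option (Fin 1)) → ℂ, x none = 0 → (∀ i, x (some (some i)) = 0) → eval x A = 0 →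
      x (some none) = 0 := fun x => b2A_zero a e s x
  refine ⟨B, A, hB, hA, hA0, ?_⟩
  have hBb : pderiv (some (some 0)) B = b2R a e s := UO.pderiv_anti_ne (by simp) _
  have hn1 : 1 ≤ 2 * h := by omega
  have e1 := gen_nd hψ hnd hB hA hA0
  have e2 := gen_ZZ hψ hnd hZ hB hA hA0
  have e3 : ∀ᶠ ε in 𝓝 (0 : ℂ), ∀ i : Fin p,
      (piS (s i) (b2F h k s0 s)).leadingCoeff + ε * (piS (s i) (ev1 (b2R a e s))).coeff (2 * h - k i) ≠ 0 := by
    rw [eventually_all]
    intro i
    have hc : ContinuousAt (fun ε : ℂ => (piS (s i) (b2F h k s0 s)).leadingCoeff +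
        ε * (piS (s i) (ev1 (b2R a e s))).coeff (2 * h - k i)) 0 := by fun_prop
    refine hc.eventually_ne ?_
    rw [zero_mul, add_zero]
    exact Polynomial.leadingCoeff_ne_zero.mpr (piS_F_ne _ _ _ _ _)
  filter_upwards [e1, e2, e3] with ε g1 g2 g3 hε
  have G1 := g1 hε
  have G2 := g2 hε
  set φ := up ψ + C ε * B with hφ
  set G : MvPolynomial (Option (Fin 1)) ℂ := b2F h k s0 s + C ε * ev1 (b2R a e s) with hG
  have c0 : critOne φ none = C ε * ((1 - X (some 0)) ^ e * ∏ i, b2Q (s i)) := by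
    change ev1 (pderiv (some none) φ) = _
    rw [hφ, map_add, pderiv_up_w, zero_add, pderiv_C_mul, hA, map_mul, ev1_C24, hAdef, ev1_b2A]
  have c1 : critOne φ (some 0) = G := by
    change ev1 (pderiv (some (some 0)) φ) = _
    rw [hφ, map_add, pderiv_up_some, hF, pderiv_C_mul, hBb, map_add, ev1_up24, map_mul, ev1_C24]
  have hspan : Ideal.span (Set.range (critOne φ)) = Ideal.span (Set.range
      (Function.update (fun _ : Option (Fin 1) => G) none ((1 - X (some 0)) ^ e * ∏ i, b2Q (s i)))) := by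
    have hC : (C ε⁻¹ * C ε : MvPolynomial (Option (Fin 1)) ℂ) = 1 := by
      rw [← C_mul, inv_mul_cancel₀ hε, C_1]
    apply le_antisymm
    · rw [Ideal.span_le]
      rintro _ ⟨o, rfl⟩
      rcases o with _ | i
      · rw [c0]
        exact Ideal.mul_mem_left _ _ (Ideal.subset_span ⟨none, Function.update_self ..⟩)
      · rw [Subsingleton.elim i 0, c1]
        exact Ideal.subset_span ⟨some 0, Function.update_of_ne (by simp) ..⟩
    · rw [Ideal.span_le]
      rintro _ ⟨o, rfl⟩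
      rcases o with _ | i
      · rw [Function.update_self]
        have h1 : ((1 - X (some 0)) ^ e * ∏ i, b2Q (s i) : MvPolynomial (Option (Fin 1)) ℂ) =
            C ε⁻¹ * critOne φ none := by
          rw [c0, ← mul_assoc, hC, one_mul]
        rw [h1]
        exact Ideal.mul_mem_left _ _ (Ideal.subset_span ⟨none, rfl⟩)
      · rw [Function.update_of_ne (by simp)]
        exact Ideal.subset_span ⟨some 0, c1⟩
  -- the sheets
  have hki : ∀ i, k i ≤ h := fun i => (Finset.single_le_sum (fun j _ => Nat.zero_le _) (Finset.mem_univ i)).trans hk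
  have dS : ∀ i, (piS (s i) G).natDegree = 2 * h - k i := by
    intro i
    have h1 := piS_F_deg hk h0 hinj i
    have h2 := piS_ev1_deg a e s ht hn1 (s i)
    apply Polynomial.natDegree_eq_of_le_of_coeff_ne_zero
    · rw [hG, map_add, map_mul, piS_C]
      refine (Polynomial.natDegree_add_le _ _).trans (max_le h1.le ?_)
      refine (Polynomial.natDegree_C_mul_le _ _).trans ?_
      have := hk1 i
      omega
    · rw [hG, map_add, map_mul, piS_C, Polynomial.coeff_add, Polynomial.coeff_C_mul]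
      have h3 : (piS (s i) (b2F h k s0 s)).coeff (2 * h - k i) = (piS (s i) (b2F h k s0 s)).leadingCoeff := by
        rw [Polynomial.leadingCoeff, h1]
      rw [h3]
      exact g3 i
  have nS : ∀ i, piS (s i) G ≠ 0 := by
    intro i h1
    have h2 := dS i
    rw [h1, Polynomial.natDegree_zero] at h2
    have := hki i
    omega
  have dL : 1 ≤ e → (piL G).natDegree = h := by
    intro he
    have h1 := piL_F_deg hk s0 s
    have h2 := piL_ev1_deg a e s ht hn1
    rw [hG, map_add, map_mul, piL_C, Polynomial.natDegree_add_eq_left_of_natDegree_lt, h1]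
    rw [h1]
    refine lt_of_le_of_lt (Polynomial.natDegree_C_mul_le _ _) ?_
    omega
  have hprod := cnt_prod (fun _ : Option (Fin 1) => G) none Finset.univ (fun i => b2Q (s i))
    fun i _ => (cnt_piS (s i) G (nS i)).1
  have hlin : Module.Finite ℂ (MvPolynomial (Option (Fin 1)) ℂ ⧸ Ideal.span (Set.range
      (Function.update (fun _ : Option (Fin 1) => G) none ((1 - X (some 0)) ^ e)))) ∧
      Module.finrank ℂ (MvPolynomial (Option (Fin 1)) ℂ ⧸ Ideal.span (Set.range
      (Function.update (fun _ : Option (Fin 1) => G) none ((1 - X (some 0)) ^ e)))) = e * h := by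
    rcases Nat.eq_zero_or_pos e with he | he
    · subst he
      rw [pow_zero, zero_mul]
      exact cnt_one _ _
    · have hne : piL G ≠ 0 := by
        intro h1
        have h2 := dL he
        rw [h1, Polynomial.natDegree_zero] at h2
        omega
      obtain ⟨h1, h2⟩ := cnt_piL G hne
      obtain ⟨h3, h4⟩ := cnt_pow _ _ _ h1 e
      exact ⟨h3, by rw [h4, h2, dL he]⟩
  obtain ⟨t1, t2⟩ := cnt_mul _ _ _ _ hlin.1 hprod.1
  refine ⟨⟨G1.wh, G1.ndx, G1.nd, ?_, ?_⟩, G2⟩
  · rw [hspan]; exact t1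
  · unfold Enum
    rw [hspan, t2, hlin.2, hprod.2]
    have h5 : ∑ i : Fin p, Module.finrank ℂ (MvPolynomial (Option (Fin 1)) ℂ ⧸ Ideal.span (Set.range
        (Function.update (fun _ : Option (Fin 1) => G) none (b2Q (s i))))) = ∑ i : Fin p, (2 * h - k i) :=
      Finset.sum_congr rfl fun i _ => by rw [(cnt_piS (s i) G (nS i)).2, dS i]
    rw [h5]
    have h6 : (∑ i : Fin p, (2 * h - k i)) + ∑ i, k i = 2 * p * h := by
      rw [← Finset.sum_add_distrib]
      have h7 : ∀ i : Fin p, 2 * h - k i + k i = 2 * h := fun i => by have := hki i; omega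
      rw [Finset.sum_congr rfl fun i _ => h7 i, Finset.sum_const, Finset.card_univ, Fintype.card_fin, smul_eq_mul]
      ring
    have h8 : (e + 2 * p) * h = e * h + 2 * p * h := by ring
    omega

/-- (B2), eventual form: `E = c h - D`, `2 ≤ c ≤ 2 h`, `0 ≤ D < h` -/
theorem b2_ev {h c D : ℕ} (hh : 1 ≤ h) (hc : 2 ≤ c) (hc' : c ≤ 2 * h) (hD : D < h) :
    ∃ (ψ : MvPolynomial (Option (Fin 1)) ℂ) (B A : MvPolynomial (Option (Option (Fin 1))) ℂ),
      wh (w21 (Fin 1)) (2 * h + 1) ψ ∧ Nds ψ ∧ ZZ ψ ∧ wh (vw (Fin 1)) (2 * h + 1) B ∧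
      pderiv (some none) B = A ∧
      (∀ x : Option (Option (Fin 1)) → ℂ, x none = 0 → (∀ i, x (some (some i)) = 0) → eval x A = 0 →
        x (some none) = 0) ∧
      ∀ᶠ ε in 𝓝 (0 : ℂ), ε ≠ 0 → St (Fin 1) (2 * h) (c * h - D) (up ψ + C ε * B) ∧ ZZ (up ψ + C ε * B) := by
  obtain ⟨k, hk1, hk2⟩ := b2_dist hc hc' hD
  obtain ⟨s0, s, ψ, _, h1, h2, h3, h4, h5, h6⟩ := b2_psi hh k (by omega)
  have hcp : c % 2 + 2 * (c / 2) = c := by omega
  obtain ⟨B, A, g1, g2, g3, g4⟩ := b2_main (a := 2 * h - c) (e := c % 2) hh (by omega) k hk1 (by omega) s0 s ψ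
    h1 h2 h3 h4 h5 h6 (c * h - D) (by
      rw [hcp, hk2]
      have : 2 * h ≤ c * h := Nat.mul_le_mul_right h hc
      omega)
  exact ⟨ψ, B, A, h3, h4, h5, g1, g2, g3, g4⟩

/-- the values `E = c h - D` -/
theorem b2_value {h E : ℕ} (hh : 1 ≤ h) (h1 : h < E) (h2 : E ≤ 2 * h * h) :
    ∃ c D, 2 ≤ c ∧ c ≤ 2 * h ∧ D < h ∧ c * h - D = E := by
  obtain ⟨n, rfl⟩ : ∃ n, E = n + 1 := ⟨E - 1, by omega⟩
  have h3 := Nat.div_add_mod n h
  have h4 := Nat.mod_lt n (show 0 < h by omega)
  have h5 : 1 ≤ n / h := (Nat.le_div_iff_mul_le (by omega)).mpr (by omega)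
  have h6 : n / h < 2 * h := (Nat.div_lt_iff_lt_mul (by omega)).mpr (by omega)
  refine ⟨n / h + 1, h - 1 - n % h, by omega, by omega, by omega, ?_⟩
  rw [add_mul, one_mul, mul_comm (n / h) h]
  omega

/-- the states with one variable, `q = 2 h` even: all `2 E ≤ q^2`, with `ZZ` -/
theorem k1_even {h E : ℕ} (hh : 1 ≤ h) (hE : E ≤ 2 * h * h) :
    ∃ φ : MvPolynomial (Option (Option (Fin 1))) ℂ, St (Fin 1) (2 * h) E φ ∧ ZZ φ := by
  rcases le_or_gt E h with h1 | h1
  · exact b1_state hh h1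
  · obtain ⟨c, D, h2, h3, h4, rfl⟩ := b2_value hh h1 hE
    obtain ⟨ψ, B, A, _, _, _, _, _, _, g⟩ := b2_ev hh h2 h3 h4
    obtain ⟨ε, hε, g'⟩ := exists_ne_of_eventually g
    exact ⟨_, g' hε⟩

end B2

end

end EY
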